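import Pool.Agent.U124.HD.Inv

/-!
# Homological and numerical equivalence on abelian varieties over finite fields: the theorem
-/

set_option autoImplicit false
set_option linter.unusedSectionVars false
set_option linter.unusedVariables false

namespace Pool.Agent.U124.HD

open NumberField Pool.Agent.H204R3.CM Pool.Agent.W547.KB Pool.Agent.W547.LD Pool.Agent.W547.HR
  Pool.Agent.W495.TA Module Pool.Agent.TH117.PO Pool.Agent.W976.TA Pool.Agent.W417.TA
  Pool.Agent.TH117.BL Pool.Agent.W495.TC Pool.Agent.W495.TB Pool.Agent.TH117.F5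
  Pool.Agent.N202.QR Pool.Agent.U124.HL
open scoped TensorProduct

noncomputable section

variable {p : ℕ} [Fact p.Prime] {ν : PadicAlgCl p ≃+* ℂ}
  {k : Type} [Field k] {Ω : Type} [Field Ω] [CharZero Ω] [Algebra k Ω]
  {C : (Y : RedAV p ν) → (κ : Type) → ((TM Ω Y) [⋀^κ]→ₗ[Ω] Ω) → Prop}

/-- If the eigenvalues are conjugate to `q / α` up to roots of unity, there are no invariant
relations. -/
theorem noInv_of_conj {Y : RedAV p ν} (h : HasConjugateEigenvalues k Ω Y) :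
    NoInvariantRelation k Ω Y := by
  classical
  let J := Σ i : Y.X.I, ((Y.X.factor i).E →+* Ω)
  have hfin : ∀ i, Finite ((Y.X.factor i).E →+* Ω) := fun i => inferInstance
  have : Finite J := inferInstance
  let _ : Fintype J := Fintype.ofFinite _
  have h' : ∀ x : J, ∃ (σ : Ω ≃ₐ[k] Ω) (m : ℕ), 0 < m ∧
      (σ (x.2 (Y.π x.1)) * x.2 (Y.π x.1)) ^ m = ((p : Ω) ^ Y.a) ^ m := fun x =>
    h _ ⟨x.1, x.2, (pow_one _).symm⟩
  choose σ m hm hσ using h'
  refine ⟨∏ x : J, m x, Finset.prod_pos fun x _ => hm x, fun e h0 h1 h2 _ => ?_⟩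
  set n := ∏ x : J, m x with hn
  funext α
  by_cases hα : α ∈ eigs Ω Y n
  · have hα' := hα
    obtain ⟨i, φ, rfl⟩ := hα'
    let x : J := ⟨i, φ⟩
    obtain ⟨c, hc⟩ : m x ∣ n := Finset.dvd_prod_of_mem m (Finset.mem_univ x)
    have h3 : (σ x (φ (Y.π i)) * φ (Y.π i)) ^ n = ((p : Ω) ^ Y.a) ^ n := by
      rw [hc, pow_mul, pow_mul, hσ x]
    have h4 : φ (Y.π i) ^ n ≠ 0 := by
      intro h5
      rw [mul_pow, h5, mul_zero] at h3
      exact q_ne Ω Y n h3.symm
    have h5 : σ x (φ (Y.π i) ^ n) = ((p : Ω) ^ Y.a) ^ n / φ (Y.π i) ^ n := by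
      rw [eq_div_iff h4, map_pow, ← mul_pow]
      exact h3
    have h6 := h1 _ hα
    rw [← h5, h2] at h6
    change e (φ (Y.π i) ^ n) = 0
    omega
  · exact h0 α hα

theorem sum_eq {L : Type} [Field L] [NumberField L] [IsCMField L] [IsGalois ℚ L]
    {j : L →+* ℂ} (jO : L →+* Ω) (hC : IsCycleSystem Ω C) (hT : AreTate Ω C) {Y : RedAV p ν}
    (hY : Big Y.X j) (e : Basis (Wt Y.X L) Ω (TM Ω Y)) (h1 : ∀ w, co jO w (e w) = 1)
    (h0 : ∀ w w', w ≠ w' → co jO w (e w') = 0) {r : ℕ}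
    {z : (TM Ω Y) [⋀^Fin r × Fin 2]→ₗ[Ω] Ω} (hz : C Y _ z) (s : Fin r × Fin 2 → Wt Y.X L)
    (hs : (z fun k => e (s k)) ≠ 0) (g : L ≃ₐ[ℚ] L) : ∑ k, ty ν j (s k) g = 0 := by
  let ε : Fin r × Fin 2 ≃ Fin (2 * r) := finProdFinEquiv.trans (finCongr (mul_comm r 2))
  obtain ⟨t, ht, h2⟩ := hT (z.domDomCongr ε) (hC.reindex ε z hz)
  have h3 := balanced jO Pool.Agent.W366.TA.val hY e h1 h0 t r ht (z.domDomCongr ε) h2
    (fun k => s (ε.symm k)) (by
      change (z fun k => e (s (ε.symm (ε k)))) ≠ 0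
      simp only [ε.symm_apply_apply]
      exact hs) g
  rw [← h3]
  exact (Equiv.sum_comp ε.symm fun k => tf p ν j (St j (s k)) g).symm

/-- **The theorem.** -/
theorem homEqNum [IsAlgClosed Ω] (hC : IsCycleSystem Ω C) (hT : AreTate Ω C)
    (hQ : AreRationalOver k Ω C) {Y : RedAV p ν} (hY : NoInvariantRelation k Ω Y) :
    HomEqNum Ω C Y := by
  classical
  intro r z hz hnum
  have hne : Nonempty (Y.X.prod (single (kp p))).I := ⟨Sum.inr ()⟩
  obtain ⟨L, _, _, _, _, j, hj⟩ := exists_cm (Y.X.prod (single (kp p)))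
  have hB : Big Y.X j := fun i ψ => hj (Sum.inl i) ψ
  have hkp : BigA (kp p) j := fun ψ => hj (Sum.inr ()) ψ
  let jO : L →+* Ω := ((IsAlgClosed.lift : L →ₐ[ℚ] Ω) : L →+* Ω)
  refine core (k := k) (jO := jO) hC hQ hkp hB ?_ (fun e h1 h0 s hs => ?_) hz hnum
  · rw [Fintype.card_prod, Fintype.card_fin, Fintype.card_fin]
    exact even_two.mul_left r
  · exact card_of_noInv hB s (sum_eq jO hC hT hB e h1 h0 hz s hs) hY

end

end Pool.Agent.U124.HD
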