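import Pool.Agent.N202.QR.Defs

/-!
# Galois conjugate Frobenius eigenvalues, and invariant relations: definitions
-/

set_option autoImplicit false

namespace Pool.Agent.U124.HD

open NumberField Module
open Pool.Agent.W495.TA Pool.Agent.TH117.PO Pool.Agent.TH117.BL Pool.Agent.N202.QR

variable {p : ℕ} [Fact p.Prime] {ν : PadicAlgCl p ≃+* ℂ}

/-- The eigenvalues in `Ω` of the `n`-th power of the Frobenius endomorphism of `Y` on the first
cohomology, that is, of the Frobenius endomorphism over the extension of degree `n` of the field with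
`q = p ^ a` elements, `a = Y.a`. -/
def eigs (Ω : Type) [Field Ω] (Y : RedAV p ν) (n : ℕ) : Set Ω :=
  {α | ∃ (i : Y.X.I) (φ : (Y.X.factor i).E →+* Ω), α = φ (Y.π i) ^ n}

/-- Each eigenvalue `α` of the Frobenius endomorphism is conjugate over `k` to `q / α`, up to a root
of unity: `(σ α * α) ^ m = q ^ m` for an automorphism `σ` of `Ω` over `k` and some `m > 0`. -/
def HasConjugateEigenvalues (k : Type) [Field k] (Ω : Type) [Field Ω] [Algebra k Ω]
    (Y : RedAV p ν) : Prop :=
  ∀ α ∈ eigs Ω Y 1, ∃ (σ : Ω ≃ₐ[k] Ω) (m : ℕ), 0 < m ∧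
    (σ α * α) ^ m = ((p : Ω) ^ Y.a) ^ m

/-- For some `n > 0` there is no nonzero function `e` with integral values on the set of the
eigenvalues of the Frobenius endomorphism over the extension of degree `n`, with
`e (q ^ n / α) = -e α`, which is invariant under the automorphisms of `Ω` over `k` and is a
multiplicative relation: a power `N > 0` of the product of the `α ^ e α` is one. -/
def NoInvariantRelation (k : Type) [Field k] (Ω : Type) [Field Ω] [Algebra k Ω]
    (Y : RedAV p ν) : Prop :=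
  ∃ n : ℕ, 0 < n ∧ ∀ e : Ω → ℤ, (∀ α, α ∉ eigs Ω Y n → e α = 0) →
    (∀ α ∈ eigs Ω Y n, e (((p : Ω) ^ Y.a) ^ n / α) = -e α) →
    (∀ (σ : Ω ≃ₐ[k] Ω) (α : Ω), e (σ α) = e α) →
    (∃ N : ℕ, 0 < N ∧ ∏ᶠ α : Ω, (α ^ e α) ^ N = 1) → e = 0

end Pool.Agent.U124.HD
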