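import Pool.Agent.U124.HD.Main
import Pool.Agent.U124.HD.Defs

/-!
# Homological and numerical equivalence if there are no invariant relations
-/

set_option autoImplicit false
set_option linter.unusedSectionVars false
set_option linter.unusedVariables false

namespace Pool.Agent.U124.HD

open NumberField Pool.Agent.H204R3.CM Pool.Agent.W547.KB Pool.Agent.W547.LD Pool.Agent.W547.HR
  Pool.Agent.W495.TA Module Pool.Agent.TH117.PO Pool.Agent.W976.TA Pool.Agent.W417.TA
  Pool.Agent.TH117.BL Pool.Agent.W495.TC Pool.Agent.W495.TB Pool.Agent.TH117.F5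
  Pool.Agent.N202.QR Pool.Agent.U124.HL
open scoped TensorProduct

noncomputable section

variable {p : ℕ} [Fact p.Prime] {ν : PadicAlgCl p ≃+* ℂ}
variable {L : Type} [Field L] [NumberField L] [IsCMField L] [IsGalois ℚ L] {j : L →+* ℂ}
  {k : Type} [Field k] {Ω : Type} [Field Ω] [CharZero Ω] [Algebra k Ω] {jO : L →+* Ω}
  {C : (Y : RedAV p ν) → (κ : Type) → ((TM Ω Y) [⋀^κ]→ₗ[Ω] Ω) → Prop}

/-- The functions are determined by the powers of the eigenvalues. -/
theorem ty_eq {Y : RedAV p ν} (hY : Big Y.X j) (w w' : Wt Y.X L) {n : ℕ} (hn : 0 < n)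
    (h : (w.2 (Y.π w.1)) ^ n = (w'.2 (Y.π w'.1)) ^ n) : ty ν j w = ty ν j w' := by
  funext σ
  have h1 := norm_pow_two_card hY w σ
  have h2 := norm_pow_two_card hY w' σ
  have hty : ∀ (w : Wt Y.X L) τ, tw p ν j Y.X w τ = ty ν j w τ := fun w τ =>
    (congrFun (tf_nn Y.X w.1 w.2) τ).symm
  rw [hty] at h1 h2
  have h3 := congrArg (fun x => ‖ν.symm (j (σ x))‖ ^ (2 * (Nat.card (Dec p ν j) : ℤ))) h
  simp only [map_pow, norm_pow] at h3
  have key : ∀ (A : ℝ) (m : ℤ), (A ^ n) ^ m = (A ^ m) ^ n := by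
    intro A m
    rw [← zpow_natCast, ← zpow_natCast, ← zpow_mul, ← zpow_mul, mul_comm (n : ℤ)]
  rw [key, key, h1, h2, ← zpow_natCast, ← zpow_natCast, ← zpow_mul, ← zpow_mul] at h3
  have h5 := zpow_inj h3
  have ha : (Y.a : ℤ) ≠ 0 := by exact_mod_cast Y.pos.ne'
  have hn' : (n : ℤ) ≠ 0 := by exact_mod_cast hn.ne'
  have h6 : ((Y.a : ℤ) * n) * (ty ν j w σ - ty ν j w' σ) = 0 := by linarith
  have h7 := (mul_eq_zero.1 h6).resolve_left (mul_ne_zero ha hn')
  linarith

/-- Balanced families of weights give multiplicative relations. -/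
theorem prod_eq {Y : RedAV p ν} (hY : Big Y.X j) {X : Type} [Fintype X] (u : X → Wt Y.X L)
    (hb : ∀ σ, ∑ x, ty ν j (u x) σ = 0) :
    ∃ s : ℕ, 0 < s ∧ (∏ x, (u x).2 (Y.π (u x).1)) ^ (2 * s) =
      ((p : L) ^ Y.a) ^ (s * Fintype.card X) := by
  classical
  have : Finite (Wt Y.X L) := Pool.Agent.W67.TA.finite_wt j hY
  let _ : Fintype (Wt Y.X L) := Fintype.ofFinite _
  have hbij := toEmb_bijective (j := j) hY
  let E : Wt Y.X L ≃ Emb Y := Equiv.ofBijective _ hbij
  let e : Emb Y → ℕ := fun v => (Finset.univ.filter fun x => toEmb j Y (u x) = v).card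
  have hsum : ∀ f : Wt Y.X L → ℤ, ∑ w : Wt Y.X L, (e (toEmb j Y w) : ℤ) * f w =
      ∑ x, f (u x) := by
    intro f
    have h1 : ∀ w : Wt Y.X L, (e (toEmb j Y w) : ℤ) * f w =
        ∑ x ∈ Finset.univ.filter (fun x => u x = w), f (u x) := by
      intro w
      have h2 : (Finset.univ.filter fun x => toEmb j Y (u x) = toEmb j Y w) =
          Finset.univ.filter fun x => u x = w :=
        Finset.filter_congr fun x _ => hbij.1.eq_iff
      change (((Finset.univ.filter fun x => toEmb j Y (u x) = toEmb j Y w).card : ℕ) : ℤ) * f w = _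
      rw [h2, Finset.sum_congr rfl fun x hx => by rw [(Finset.mem_filter.1 hx).2],
        Finset.sum_const, nsmul_eq_mul]
    rw [Finset.sum_congr rfl fun w _ => h1 w]
    exact Finset.sum_fiberwise_of_maps_to (fun x _ => Finset.mem_univ _) _
  have hrel : IsRel Y e := by
    rw [isRel_iff hY]
    intro σ
    rw [hsum fun w => tw p ν j Y.X w σ, ← hb σ]
    exact Finset.sum_congr rfl fun x _ => (congrFun (tf_nn Y.X (u x).1 (u x).2) σ).symm
  obtain ⟨s, hs, h⟩ := hrel
  refine ⟨s, hs, j.injective ?_⟩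
  have h1 : ∏ w, eig Y w ^ e w = ∏ x, eig Y (toEmb j Y (u x)) := by
    rw [← Finset.prod_fiberwise_of_maps_to (s := Finset.univ) (t := Finset.univ)
      (g := fun x => toEmb j Y (u x)) (fun x _ => Finset.mem_univ _)]
    refine Finset.prod_congr rfl fun v _ => ?_
    rw [Finset.prod_congr rfl fun x hx => by rw [(Finset.mem_filter.1 hx).2], Finset.prod_const]
  have h2 : ∑ w, e w = Fintype.card X := by
    rw [← Finset.card_univ, Finset.card_eq_sum_card_fiberwise (s := Finset.univ)
      (t := Finset.univ) (f := fun x => toEmb j Y (u x)) (fun x _ => Finset.mem_coe.2 (Finset.mem_univ _))]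
  rw [h1, h2] at h
  rw [map_pow, map_prod, map_pow, map_pow, map_natCast, ← h]
  rfl

variable (jO) in
/-- The eigenvalue of the `n`-th power of the Frobenius endomorphism belonging to a weight. -/
def al (n : ℕ) {Y : RedAV p ν} (w : Wt Y.X L) : Ω := jO (w.2 (Y.π w.1)) ^ n

theorem al_mem (jO : L →+* Ω) (n : ℕ) {Y : RedAV p ν} (w : Wt Y.X L) : al jO n w ∈ eigs Ω Y n :=
  ⟨w.1, jO.comp w.2, rfl⟩

theorem al_mul_bar (j : L →+* ℂ) (jO : L →+* Ω) (n : ℕ) {Y : RedAV p ν} (w : Wt Y.X L) :
    al jO n w * al jO n (bar w) = ((p : Ω) ^ Y.a) ^ n := by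
  have h1 : w.2 (Y.π w.1) * cc L (w.2 (Y.π w.1)) = (p : L) ^ Y.a := weil_eq j w
  have h2 := congrArg jO h1
  rw [map_mul, map_pow, map_natCast] at h2
  rw [← h2, mul_pow]
  rfl

theorem q_ne (Ω : Type) [Field Ω] [CharZero Ω] (Y : RedAV p ν) (n : ℕ) :
    ((p : Ω) ^ Y.a) ^ n ≠ 0 :=
  pow_ne_zero _ (pow_ne_zero _ (Nat.cast_ne_zero.2 (Fact.out : p.Prime).ne_zero))

theorem al_ne (j : L →+* ℂ) (jO : L →+* Ω) (n : ℕ) {Y : RedAV p ν} (w : Wt Y.X L) :
    al jO n w ≠ 0 := by
  intro h
  have h1 := al_mul_bar j jO n w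
  rw [h, zero_mul] at h1
  exact q_ne Ω Y n h1.symm

theorem al_bar (j : L →+* ℂ) (jO : L →+* Ω) (n : ℕ) {Y : RedAV p ν} (w : Wt Y.X L) :
    al jO n (bar w) = ((p : Ω) ^ Y.a) ^ n / al jO n w := by
  rw [eq_div_iff (al_ne j jO n w), mul_comm]
  exact al_mul_bar j jO n w

theorem al_sw (jO : L →+* Ω) (n : ℕ) {Y : RedAV p ν} (w : Wt Y.X L) (σ : Ω ≃ₐ[k] Ω)
    (g : L ≃ₐ[ℚ] L) (hσ : ∀ x, σ (jO x) = jO (g x)) : al jO n (sw g w) = σ (al jO n w) := by
  unfold al
  rw [map_pow, hσ]
  rfl

/-- The sums over the decomposition group vanish, if there are no invariant relations. -/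
theorem card_of_noInv {Y : RedAV p ν} (hY : Big Y.X j) {κ : Type} [Fintype κ]
    (s : κ → Wt Y.X L) (hb : ∀ σ, ∑ i, ty ν j (s i) σ = 0) (h : NoInvariantRelation k Ω Y)
    (f : (L ≃ₐ[ℚ] L) → ℤ) :
    Nat.card {x : Dk k jO × κ // ty ν j (sw x.1.1 (s x.2)) = f} =
      Nat.card {x : Dk k jO × κ // ty ν j (sw x.1.1 (s x.2)) = -f} := by
  classical
  let _ : Fintype (Dk k jO) := Fintype.ofFinite _
  obtain ⟨n, hn, h⟩ := h
  let X := Dk k jO × κ
  let u : X → Wt Y.X L := fun x => sw x.1.1 (s x.2)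
  let A : X → Ω := fun x => al jO n (u x)
  let B : X → Ω := fun x => al jO n (bar (u x))
  set q : Ω := ((p : Ω) ^ Y.a) ^ n with hq
  have hq0 : q ≠ 0 := q_ne Ω Y n
  have hA0 : ∀ x, A x ≠ 0 := fun x => al_ne j jO n _
  have hB0 : ∀ x, B x ≠ 0 := fun x => al_ne j jO n _
  have hAB : ∀ x, B x = q / A x := fun x => al_bar j jO n _
  let c1 : Ω → ℕ := fun α => (Finset.univ.filter fun x => A x = α).card
  let c2 : Ω → ℕ := fun α => (Finset.univ.filter fun x => B x = α).card
  let e : Ω → ℤ := fun α => (c1 α : ℤ) - c2 α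
  let S : Finset Ω := Finset.univ.image A ∪ Finset.univ.image B
  have hSA : ∀ x, A x ∈ S := fun x =>
    Finset.mem_union_left _ (Finset.mem_image_of_mem _ (Finset.mem_univ x))
  have hSB : ∀ x, B x ∈ S := fun x =>
    Finset.mem_union_right _ (Finset.mem_image_of_mem _ (Finset.mem_univ x))
  have hz1 : ∀ α, (∀ x, A x ≠ α) → c1 α = 0 := fun α hα =>
    Finset.card_eq_zero.2 (Finset.filter_eq_empty_iff.2 fun x _ => hα x)
  have hz2 : ∀ α, (∀ x, B x ≠ α) → c2 α = 0 := fun α hα =>
    Finset.card_eq_zero.2 (Finset.filter_eq_empty_iff.2 fun x _ => hα x)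
  have he : e = 0 := by
    refine h e ?_ ?_ ?_ ?_
    · intro α hα
      have e1 : c1 α = 0 := hz1 α fun x hx => hα (hx ▸ al_mem jO n _)
      have e2 : c2 α = 0 := hz2 α fun x hx => hα (hx ▸ al_mem jO n _)
      change (c1 α : ℤ) - c2 α = 0
      rw [e1, e2, sub_self]
    · intro α hα
      have hα0 : α ≠ 0 := by
        obtain ⟨i, φ, rfl⟩ := hα
        refine pow_ne_zero _ ((map_ne_zero φ).2 fun h0 => ?_)
        obtain ⟨ψ⟩ : Nonempty ((Y.X.factor i).E →+* ℂ) := inferInstance
        have h2 := (Y.frob i).weil ψ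
        rw [h0, map_zero, norm_zero] at h2
        have h3 : (p : ℝ) ^ Y.a ≠ 0 :=
          pow_ne_zero _ (Nat.cast_ne_zero.2 (Fact.out : p.Prime).ne_zero)
        exact h3 (by rw [← h2]; norm_num)
      have e1 : c1 (q / α) = c2 α := by
        change (Finset.univ.filter fun x => A x = q / α).card =
          (Finset.univ.filter fun x => B x = α).card
        congr 1
        refine Finset.filter_congr fun x _ => ?_
        rw [hAB, eq_div_iff hα0, div_eq_iff (hA0 x), mul_comm]
        exact eq_comm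
      have e2 : c2 (q / α) = c1 α := by
        change (Finset.univ.filter fun x => B x = q / α).card =
          (Finset.univ.filter fun x => A x = α).card
        congr 1
        refine Finset.filter_congr fun x _ => ?_
        rw [hAB, div_eq_div_iff (hA0 x) hα0]
        constructor
        · exact fun h => (mul_left_cancel₀ hq0 h).symm
        · exact fun h => by rw [h]
      change (c1 (q / α) : ℤ) - c2 (q / α) = -((c1 α : ℤ) - c2 α)
      rw [e1, e2]
      ring
    · intro σ α
      obtain ⟨g, hg⟩ := exists_restrict σ jO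
      have hgD : g ∈ Dk k jO := ⟨σ, hg⟩
      let T : X ≃ X := Equiv.prodCongr (Equiv.mulLeft (⟨g, hgD⟩ : Dk k jO)) (Equiv.refl κ)
      have hT : ∀ x, u (T x) = sw g (u x) := by
        intro x
        refine Sigma.ext rfl (heq_of_eq ?_)
        ext y
        rfl
      have hTA : ∀ x, A (T x) = σ (A x) := fun x => by
        change al jO n (u (T x)) = _
        rw [hT]
        exact al_sw jO n _ σ g hg
      have hσq : σ q = q := by
        rw [hq, map_pow, map_pow, map_natCast]
      have hTB : ∀ x, B (T x) = σ (B x) := fun x => by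
        rw [hAB, hAB, hTA, map_div₀, hσq]
      have e1 : c1 (σ α) = c1 α := by
        refine (Finset.card_equiv T fun x => ?_).symm
        rw [Finset.mem_filter, Finset.mem_filter, hTA]
        simp only [Finset.mem_univ, true_and]
        exact σ.injective.eq_iff.symm
      have e2 : c2 (σ α) = c2 α := by
        refine (Finset.card_equiv T fun x => ?_).symm
        rw [Finset.mem_filter, Finset.mem_filter, hTB]
        simp only [Finset.mem_univ, true_and]
        exact σ.injective.eq_iff.symm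
      change (c1 (σ α) : ℤ) - c2 (σ α) = (c1 α : ℤ) - c2 α
      rw [e1, e2]
    · have hbal : ∀ σ, ∑ x, ty ν j (u x) σ = 0 := by
        intro σ
        rw [Fintype.sum_prod_type]
        refine Finset.sum_eq_zero fun g _ => ?_
        rw [← hb (σ * g.1)]
        exact Finset.sum_congr rfl fun i _ => ty_sw g.1 (s i) σ
      obtain ⟨N, hN, h1⟩ := prod_eq hY u hbal
      refine ⟨N, hN, ?_⟩
      have h2 : (∏ x, A x) ^ (2 * N) = q ^ (N * Fintype.card X) := by
        have h3 := congrArg (fun y => jO y ^ n) h1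
        simp only [map_pow, map_prod, map_natCast] at h3
        have h4 : ∏ x, A x = (∏ x, jO ((u x).2 (Y.π (u x).1))) ^ n := by
          rw [← Finset.prod_pow]
          rfl
        rw [h4, ← pow_mul, mul_comm n, pow_mul, h3, ← pow_mul, ← pow_mul, hq, ← pow_mul, ← pow_mul]
        congr 1
        ring
      have hA1 : ∏ α ∈ S, α ^ c1 α = ∏ x, A x := by
        rw [← Finset.prod_fiberwise_of_maps_to (s := Finset.univ) (t := S) (g := A)
          (fun x _ => hSA x)]
        refine Finset.prod_congr rfl fun α _ => ?_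
        rw [Finset.prod_congr rfl fun x hx => (Finset.mem_filter.1 hx).2, Finset.prod_const]
      have hB1 : ∏ α ∈ S, α ^ c2 α = ∏ x, B x := by
        rw [← Finset.prod_fiberwise_of_maps_to (s := Finset.univ) (t := S) (g := B)
          (fun x _ => hSB x)]
        refine Finset.prod_congr rfl fun α _ => ?_
        rw [Finset.prod_congr rfl fun x hx => (Finset.mem_filter.1 hx).2, Finset.prod_const]
      have hS0 : ∀ α ∈ S, α ≠ 0 := by
        intro α hα
        rcases Finset.mem_union.1 hα with h3 | h3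
        · obtain ⟨x, -, rfl⟩ := Finset.mem_image.1 h3
          exact hA0 x
        · obtain ⟨x, -, rfl⟩ := Finset.mem_image.1 h3
          exact hB0 x
      have h3 : ∏ᶠ α : Ω, (α ^ e α) ^ N = ∏ α ∈ S, (α ^ e α) ^ N := by
        refine finprod_eq_prod_of_mulSupport_subset _ fun α hα => ?_
        by_contra hS
        refine hα ?_
        have e1 : c1 α = 0 := hz1 α fun x hx => hS (hx ▸ Finset.mem_coe.2 (hSA x))
        have e2 : c2 α = 0 := hz2 α fun x hx => hS (hx ▸ Finset.mem_coe.2 (hSB x))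
        have e3 : e α = 0 := by
          change (c1 α : ℤ) - c2 α = 0
          rw [e1, e2, sub_self]
        change (α ^ e α) ^ N = 1
        rw [e3, zpow_zero, one_pow]
      have h4 : ∏ α ∈ S, (α ^ e α) ^ N = ((∏ x, A x) / ∏ x, B x) ^ N := by
        rw [Finset.prod_pow, ← hA1, ← hB1, ← Finset.prod_div_distrib]
        congr 1
        refine Finset.prod_congr rfl fun α hα => ?_
        change α ^ ((c1 α : ℤ) - c2 α) = _
        rw [zpow_sub₀ (hS0 α hα), zpow_natCast, zpow_natCast]
      have h5 : ∏ x, B x = q ^ Fintype.card X / ∏ x, A x := by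
        rw [Finset.prod_congr rfl fun x _ => hAB x, Finset.prod_div_distrib, Finset.prod_const,
          Finset.card_univ]
      have h6 : ∏ x, A x ≠ 0 := Finset.prod_ne_zero_iff.2 fun x _ => hA0 x
      rw [h3, h4, h5]
      have h7 : (∏ x, A x) / (q ^ Fintype.card X / ∏ x, A x) =
          (∏ x, A x) ^ 2 / q ^ Fintype.card X := by
        field_simp
      have h8 : (q ^ Fintype.card X) ^ N = q ^ (N * Fintype.card X) := by
        rw [mul_comm N]
        exact (pow_mul q _ _).symm
      have h9 : ((∏ x, A x) ^ 2) ^ N = (∏ x, A x) ^ (2 * N) := (pow_mul _ _ _).symm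
      rw [h7, div_pow, h8, h9, h2]
      exact div_self (pow_ne_zero _ hq0)
  have hcc : ∀ α, c1 α = c2 α := by
    intro α
    have h1 := congrFun he α
    change (c1 α : ℤ) - c2 α = 0 at h1
    omega
  let F : Ω → Prop := fun α => ∃ w : Wt Y.X L, al jO n w = α ∧ ty ν j w = f
  have hF : ∀ w : Wt Y.X L, ty ν j w = f ↔ F (al jO n w) := by
    intro w
    constructor
    · intro hw
      exact ⟨w, rfl, hw⟩
    · rintro ⟨w', h1, h2⟩
      rw [← h2]
      refine ty_eq hY w w' hn (jO.injective ?_)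
      rw [map_pow, map_pow]
      exact h1.symm
  have hcount : ∀ (D : X → Ω) (hD : ∀ x, D x ∈ S), (Finset.univ.filter fun x => F (D x)).card =
      ∑ α ∈ S.filter F, (Finset.univ.filter fun x => D x = α).card := by
    intro D hD
    rw [Finset.card_eq_sum_card_fiberwise (s := Finset.univ.filter fun x => F (D x))
      (t := S.filter F) (f := D) (fun x hx => Finset.mem_coe.2
        (Finset.mem_filter.2 ⟨hD x, (Finset.mem_filter.1 (Finset.mem_coe.1 hx)).2⟩))]
    refine Finset.sum_congr rfl fun α hα => ?_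
    congr 1
    ext x
    simp only [Finset.mem_filter, Finset.mem_univ, true_and]
    constructor
    · exact fun h => h.2
    · intro h
      exact ⟨h ▸ (Finset.mem_filter.1 hα).2, h⟩
  have g1 : Nat.card {x : Dk k jO × κ // ty ν j (sw x.1.1 (s x.2)) = f} =
      (Finset.univ.filter fun x => F (A x)).card := by
    rw [Nat.card_congr (Equiv.subtypeEquivRight fun x => hF (u x)), Nat.card_eq_fintype_card,
      Fintype.card_subtype]
  have g2 : Nat.card {x : Dk k jO × κ // ty ν j (sw x.1.1 (s x.2)) = -f} =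
      (Finset.univ.filter fun x => F (B x)).card := by
    rw [Nat.card_congr (Equiv.subtypeEquivRight fun x => show _ ↔ F (B x) from ?_),
      Nat.card_eq_fintype_card, Fintype.card_subtype]
    change ty ν j (u x) = -f ↔ F (al jO n (bar (u x)))
    rw [← hF (bar (u x)), ty_bar, neg_eq_iff_eq_neg]
  rw [g1, g2, hcount A hSA, hcount B hSB]
  exact Finset.sum_congr rfl fun α _ => hcc α

end

end Pool.Agent.U124.HD
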