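import Pool.Agent.U124.HD.Sum
import Pool.Agent.U124.HL.DefsD

/-!
# Homological and numerical equivalence on abelian varieties over finite fields
-/

set_option autoImplicit false
set_option linter.unusedSectionVars false
set_option linter.unusedVariables false

namespace Pool.Agent.U124.HD

open NumberField Pool.Agent.H204R3.CM Pool.Agent.W547.KB Pool.Agent.W547.LD Pool.Agent.W547.HR
  Pool.Agent.W495.TA Module Pool.Agent.TH117.PO Pool.Agent.W976.TA Pool.Agent.W417.TA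
  Pool.Agent.TH117.BL Pool.Agent.W495.TC Pool.Agent.W495.TB Pool.Agent.TH117.F5
  Pool.Agent.N202.QR Pool.Agent.U124.HL
open scoped TensorProduct

noncomputable section

variable {p : ℕ} [Fact p.Prime] {ν : PadicAlgCl p ≃+* ℂ}
variable {L : Type} [Field L] [NumberField L] [IsCMField L] [IsGalois ℚ L] {j : L →+* ℂ}
  {k : Type} [Field k] {Ω : Type} [Field Ω] [CharZero Ω] [Algebra k Ω] {jO : L →+* Ω}
  {C : (Y : RedAV p ν) → (κ : Type) → ((TM Ω Y) [⋀^κ]→ₗ[Ω] Ω) → Prop}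

theorem exists_restrict (σ : Ω ≃ₐ[k] Ω) (jO : L →+* Ω) :
    ∃ g : L ≃ₐ[ℚ] L, ∀ x, σ (jO x) = jO (g x) := by
  let _ : Algebra L Ω := jO.toAlgebra
  have : IsScalarTower ℚ L Ω := IsScalarTower.of_algebraMap_eq' (Subsingleton.elim _ _)
  let σQ : Ω ≃ₐ[ℚ] Ω := AlgEquiv.ofRingEquiv (f := (σ : Ω ≃+* Ω)) fun q => by simp
  exact ⟨σQ.restrictNormal L, fun y => (σQ.restrictNormal_commutes L y).symm⟩

theorem ty_sw {X : CMAV} (g : L ≃ₐ[ℚ] L) (w : Wt X L) (σ : L ≃ₐ[ℚ] L) :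
    ty ν j (sw g w) σ = ty ν j w (σ * g) := tf_smul_wt j X w g σ

theorem ty_bar {Y : RedAV p ν} (w : Wt Y.X L) : ty ν j (bar w) = -ty ν j w := tf_bar w

/-- If an eigenvalue and its image under an automorphism have the product `q` up to a root of unity,
the functions are opposite. -/
theorem ty_neg {Y : RedAV p ν} (hY : Big Y.X j) (w : Wt Y.X L) (g : L ≃ₐ[ℚ] L) {m : ℕ}
    (hm : 0 < m) (h : (g (w.2 (Y.π w.1)) * w.2 (Y.π w.1)) ^ m = ((p : L) ^ Y.a) ^ m)
    (σ : L ≃ₐ[ℚ] L) : ty ν j w (σ * g) = -ty ν j w σ := by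
  have h1 := norm_pow_two_card hY w σ
  have h2 := norm_pow_two_card hY w (σ * g)
  have hty : ∀ τ, tw p ν j Y.X w τ = ty ν j w τ := fun τ =>
    (congrFun (tf_nn Y.X w.1 w.2) τ).symm
  rw [hty] at h1 h2
  have h3 := congrArg (fun x => ‖ν.symm (j (σ x))‖ ^ (2 * (Nat.card (Dec p ν j) : ℤ))) h
  simp only [map_pow, map_mul, map_natCast, norm_pow, norm_mul] at h3
  have key : ∀ (A B : ℝ) (n : ℤ), ((A * B) ^ m) ^ n = (A ^ n * B ^ n) ^ m := by
    intro A B n
    rw [← mul_zpow, ← zpow_natCast, ← zpow_natCast, ← zpow_mul, ← zpow_mul, mul_comm (m : ℤ)]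
  have h4 : ((‖ν.symm (j (σ (g (w.2 (Y.π w.1)))))‖ * ‖ν.symm (j (σ (w.2 (Y.π w.1))))‖) ^ m) ^
      (2 * (Nat.card (Dec p ν j) : ℤ)) =
      (‖(p : PadicAlgCl p)‖ ^ ((Y.a : ℤ) * ((Nat.card (Dec p ν j) : ℤ) + ty ν j w (σ * g))) *
        ‖(p : PadicAlgCl p)‖ ^ ((Y.a : ℤ) * ((Nat.card (Dec p ν j) : ℤ) + ty ν j w σ))) ^ m := by
    rw [← h1, ← h2]
    exact key _ _ _
  rw [h4, ← zpow_add₀ norm_p_pos.ne', ← zpow_natCast, ← zpow_natCast, ← zpow_natCast, ← zpow_mul,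
    ← zpow_mul, ← zpow_mul] at h3
  have h5 := zpow_inj h3
  have ha : (Y.a : ℤ) ≠ 0 := by exact_mod_cast Y.pos.ne'
  have hm' : (m : ℤ) ≠ 0 := by exact_mod_cast hm.ne'
  have h6 : ((Y.a : ℤ) * m) * (ty ν j w (σ * g) + ty ν j w σ) = 0 := by linarith
  have h7 := (mul_eq_zero.1 h6).resolve_left (mul_ne_zero ha hm')
  linarith

/-- The sums over the decomposition group vanish. -/
theorem card_eq_card {Y : RedAV p ν}
    (hw : ∀ w : Wt Y.X L, ∃ g ∈ Dk k jO, ∀ σ, ty ν j w (σ * g) = -ty ν j w σ)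
    {κ : Type} (s : κ → Wt Y.X L) (f : (L ≃ₐ[ℚ] L) → ℤ) :
    Nat.card {x : Dk k jO × κ // ty ν j (sw x.1.1 (s x.2)) = f} =
      Nat.card {x : Dk k jO × κ // ty ν j (sw x.1.1 (s x.2)) = -f} := by
  by_cases hex : ∃ x : Dk k jO × κ, ty ν j (sw x.1.1 (s x.2)) = f ∨
      ty ν j (sw x.1.1 (s x.2)) = -f
  · obtain ⟨g0, hg0, hf⟩ : ∃ g ∈ Dk k jO, ∀ σ, f (σ * g) = -f σ := by
      obtain ⟨x, hx | hx⟩ := hex
      · obtain ⟨g, hg, h⟩ := hw (sw x.1.1 (s x.2))
        exact ⟨g, hg, fun σ => by rw [← hx]; exact h σ⟩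
      · obtain ⟨g, hg, h⟩ := hw (sw x.1.1 (s x.2))
        refine ⟨g, hg, fun σ => ?_⟩
        have h1 := h σ
        rw [hx, Pi.neg_apply, Pi.neg_apply, neg_neg] at h1
        omega
    refine Nat.card_congr (Equiv.subtypeEquiv
      (Equiv.prodCongr (Equiv.mulLeft (⟨g0, hg0⟩ : Dk k jO)) (Equiv.refl κ)) fun x => ?_)
    have h2 : ∀ σ, ty ν j (sw (g0 * x.1.1) (s x.2)) σ = ty ν j (sw x.1.1 (s x.2)) (σ * g0) := by
      intro σ
      rw [ty_sw, ty_sw, mul_assoc]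
    change _ ↔ ty ν j (sw (g0 * x.1.1) (s x.2)) = -f
    constructor
    · intro h
      funext σ
      rw [h2, h, hf, Pi.neg_apply]
    · intro h
      funext σ
      have h3 := congrFun h (σ * g0⁻¹)
      rw [h2, inv_mul_cancel_right, Pi.neg_apply] at h3
      have h4 := hf (σ * g0⁻¹)
      rw [inv_mul_cancel_right] at h4
      rw [h3, h4]
  · push Not at hex
    have e1 : IsEmpty {x : Dk k jO × κ // ty ν j (sw x.1.1 (s x.2)) = f} :=
      ⟨fun x => (hex x.1).1 x.2⟩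
    have e2 : IsEmpty {x : Dk k jO × κ // ty ν j (sw x.1.1 (s x.2)) = -f} :=
      ⟨fun x => (hex x.1).2 x.2⟩
    rw [Nat.card_of_isEmpty, Nat.card_of_isEmpty]

theorem bar_ne {X : CMAV} (j : L →+* ℂ) (w : Wt X L) : bar w ≠ w := by
  intro h
  have h1 := one_mem_bar j w
  rw [h] at h1
  tauto

theorem even_wt {X : CMAV} (j : L →+* ℂ) [Fintype (Wt X L)] : Even (Fintype.card (Wt X L)) := by
  classical
  let τ : Function.End (Wt X L) := bar
  have h1 : τ ^ 2 ^ 1 = 1 := by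
    funext w
    rw [pow_one, pow_two]
    exact bar_bar w
  have h2 := Equiv.Perm.card_fixedPoints_modEq (p := 2) h1
  have h3 : IsEmpty (Function.fixedPoints τ) := ⟨fun w => bar_ne j w.1 w.2⟩
  rw [Fintype.card_eq_zero (α := Function.fixedPoints τ)] at h2
  exact (Nat.even_iff).2 h2

/-- **Homological and numerical equivalence.** -/
theorem core [IsAlgClosed Ω] (hC : IsCycleSystem Ω C) (hQ : AreRationalOver k Ω C)
    (hkp : BigA (kp p) j) {Y : RedAV p ν} (hB : Big Y.X j)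
    {κ : Type} [Fintype κ] [DecidableEq κ] (heven : Even (Fintype.card κ))
    {z : (TM Ω Y) [⋀^κ]→ₗ[Ω] Ω}
    (hd : ∀ (e : Basis (Wt Y.X L) Ω (TM Ω Y)), (∀ w, co jO w (e w) = 1) →
      (∀ w w', w ≠ w' → co jO w (e w') = 0) → ∀ s : κ → Wt Y.X L, (z fun k => e (s k)) ≠ 0 →
      ∀ f, Nat.card {x : Dk k jO × κ // ty ν j (sw x.1.1 (s x.2)) = f} =
        Nat.card {x : Dk k jO × κ // ty ν j (sw x.1.1 (s x.2)) = -f})
    (hz : C Y κ z) (hnum : IsNumTrivial Ω C z) : z = 0 := by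
  classical
  obtain ⟨e, h1, h0⟩ := Pool.Agent.W67.TA.basis p ν Ω L j jO Y hB
  have : Finite (Wt Y.X L) := Pool.Agent.W67.TA.finite_wt j hB
  let _ : Fintype (Wt Y.X L) := Fintype.ofFinite _
  by_contra hz0
  obtain ⟨s, hs⟩ : ∃ s : κ → Wt Y.X L, (z fun k => e (s k)) ≠ 0 := by
    by_contra hcon
    push Not at hcon
    exact hz0 (Basis.ext_alternating e fun v _ => hcon v)
  have hsi : Function.Injective s := by
    intro k k' hk
    by_contra hne
    refine hs (z.map_eq_zero_of_eq _ ?_ hne)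
    rw [hk]
  have h2 : Occ jO C Y s := ⟨_, _, hs, Ln_coef hC j hB e h1 h0 hz hsi⟩
  have h3 := Occ.conj hC hQ hkp hB hsi heven (hd e h1 h0 s hs) h2
  have hsb : Function.Injective fun i => bar (s i) := fun i i' hi => hsi (bar_injective hi)
  let κ' := {w : Wt Y.X L // w ∉ Set.range s}
  let t : κ' → Wt Y.X L := fun w => w.1
  have hb : Function.Bijective (Sum.elim s t) := by
    constructor
    · refine Function.Injective.sumElim hsi Subtype.val_injective fun k w h => ?_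
      exact w.2 ⟨k, h⟩
    · intro w
      by_cases hw : w ∈ Set.range s
      · obtain ⟨k, hk⟩ := hw
        exact ⟨Sum.inl k, hk⟩
      · exact ⟨Sum.inr ⟨w, hw⟩, rfl⟩
  let E : κ' ⊕ κ ≃ Wt Y.X L := (Equiv.sumComm κ' κ).trans (Equiv.ofBijective _ hb)
  have hE : ∀ x, Sum.elim (fun i => ty ν j (t i)) (fun i => -ty ν j (bar (s i))) x =
      ty ν j (E x) := by
    rintro (i | i)
    · rfl
    · change -ty ν j (bar (s i)) = ty ν j (s i)
      rw [ty_bar, neg_neg]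
  have hcnt : ∀ f, Nat.card {x : κ' ⊕ κ //
      Sum.elim (fun i => ty ν j (t i)) (fun i => -ty ν j (bar (s i))) x = f} =
      Nat.card {w : Wt Y.X L // ty ν j w = f} := fun f =>
    Nat.card_congr (Equiv.subtypeEquiv E fun x => by rw [hE])
  have h4 : Occ jO C Y t := by
    refine Occ.transfer hC hkp hB hB hsb Subtype.val_injective ?_ (fun f => ?_) h3
    · rw [← Fintype.card_sum, Fintype.card_congr E]
      exact even_wt j
    · rw [hcnt, hcnt]
      refine Nat.card_congr (Equiv.subtypeEquiv (Function.Involutive.toPerm bar bar_bar) fun w => ?_)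
      change _ ↔ ty ν j (bar w) = -f
      rw [ty_bar, neg_inj]
  exact not_numTrivial hB e h1 h0 hb hs h4 hnum

end

end Pool.Agent.U124.HD
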