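import Pool.Agent.U124.HL.Word

/-!
# Words which occur in the classes of a cycle system, and sums over decomposition groups
-/

set_option autoImplicit false
set_option linter.unusedSectionVars false
set_option linter.unusedVariables false

namespace Pool.Agent.U124.HD

open NumberField Pool.Agent.H204R3.CM Pool.Agent.W547.KB Pool.Agent.W547.LD Pool.Agent.W547.HR
  Pool.Agent.W495.TA Module Pool.Agent.TH117.PO Pool.Agent.W976.TA Pool.Agent.W417.TA
  Pool.Agent.TH117.BL Pool.Agent.W495.TC Pool.Agent.W495.TB Pool.Agent.TH117.F5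
  Pool.Agent.N202.QR Pool.Agent.U124.HL
open scoped TensorProduct

noncomputable section

variable {p : ℕ} [Fact p.Prime] {ν : PadicAlgCl p ≃+* ℂ}
variable {L : Type} [Field L] [NumberField L] [IsCMField L] [IsGalois ℚ L] {j : L →+* ℂ}
  {Ω : Type} [Field Ω] [CharZero Ω] {jO : L →+* Ω}
  {C : (Y : RedAV p ν) → (κ : Type) → ((TM Ω Y) [⋀^κ]→ₗ[Ω] Ω) → Prop}

/-- The function (the slopes of all conjugates) belonging to a weight. -/
abbrev ty (ν : PadicAlgCl p ≃+* ℂ) (j : L →+* ℂ) {X : CMAV} (w : Wt X L) :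
    (L ≃ₐ[ℚ] L) → ℤ := tf p ν j (St j w)

variable (jO C) in
/-- The word occurs in a class. -/
def Occ (Y : RedAV p ν) {κ : Type} [Fintype κ] [DecidableEq κ] (s : κ → Wt Y.X L) : Prop :=
  ∃ c c' : Ω, c ≠ 0 ∧ Ln jO C Y s c c'

theorem Occ.empty (hC : IsCycleSystem Ω C) {Y : RedAV p ν} {κ : Type} [Fintype κ]
    [DecidableEq κ] [IsEmpty κ] (s : κ → Wt Y.X L) : Occ jO C Y s :=
  ⟨1, 1, one_ne_zero, Ln_empty hC s⟩

theorem Occ.cup (hC : IsCycleSystem Ω C) {Y : RedAV p ν} {κ κ' : Type} [Fintype κ]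
    [DecidableEq κ] [Fintype κ'] [DecidableEq κ'] {s : κ → Wt Y.X L} {t : κ' → Wt Y.X L}
    (h : Occ jO C Y s) (h' : Occ jO C Y t) : Occ jO C Y (Sum.elim s t) := by
  obtain ⟨c, c', hc, h1⟩ := h
  obtain ⟨d, d', hd, h2⟩ := h'
  exact ⟨c * d, c' * d', mul_ne_zero hc hd, Ln.cup hC h1 h2⟩

theorem Occ.reindex (hC : IsCycleSystem Ω C) {Y : RedAV p ν} {κ κ' : Type} [Fintype κ]
    [DecidableEq κ] [Fintype κ'] [DecidableEq κ'] (e : κ ≃ κ') {s : κ → Wt Y.X L}
    {t : κ' → Wt Y.X L} (hst : ∀ k, t (e k) = s k) (h : Occ jO C Y s) : Occ jO C Y t := by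
  obtain ⟨c, c', hc, h1⟩ := h
  exact ⟨c, c', hc, Ln.reindex hC e hst h1⟩

theorem Occ.types (hC : IsCycleSystem Ω C) (j : L →+* ℂ) {Y Z : RedAV p ν} {κ : Type} [Fintype κ]
    [DecidableEq κ] {s : κ → Wt Y.X L} {t : κ → Wt Z.X L} (ht : Function.Injective t)
    (hst : ∀ k, St j (s k) = St j (t k)) (h : Occ jO C Z t) : Occ jO C Y s := by
  obtain ⟨c, c', hc, h1⟩ := h
  exact ⟨c, c', hc, Ln.types hC j ht hst h1⟩

/-- Words with vanishing counting function are words of classes generated by divisors. -/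
theorem alg_of_dcnt (hkp : BigA (kp p) j) {P : RedAV p ν} (hP : Big P.X j) {κ : Type} [Fintype κ]
    [DecidableEq κ] (I : κ → Wt P.X L) (heven : Even (Fintype.card κ))
    (h : ∀ f, Nat.card {k // ty ν j (I k) = f} = Nat.card {k // ty ν j (I k) = -f}) :
    Alg Ω P κ (monoO jO I) := by
  have hclosed := closedM (p := p) (ν := ν) j jO
  have h1 : GenD (AlgM p ν j jO) {f | PairCancel (L ≃ₐ[ℚ] L) (AlgM p ν j jO) f}
      (dcnt fun k => ty ν j (I k)) := by
    have h2 : (dcnt fun k => ty ν j (I k)) = 0 := by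
      funext f
      unfold dcnt
      rw [h f, sub_self]
      rfl
    rw [h2]
    exact GenD.zero
  have h2 : AlgM p ν j jO κ fun k => ty ν j (I k) := by
    refine of_genD (R := {f | PairCancel (L ≃ₐ[ℚ] L) (AlgM p ν j jO) f}) hclosed
      (fun f hf => hf) (fun k => ty ν j (I k)) (fun k => ?_) ?_ h1
    · change PairCancel (L ≃ₐ[ℚ] L) (AlgM p ν j jO) (ty ν j (I k))
      have h3 : ty ν j (I k) = nn p ν j (P.X.factor (I k).1) (I k).2 :=
        tf_nn P.X (I k).1 (I k).2
      rw [h3]
      exact cancel_nn j jO _ _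
    · rw [Nat.card_eq_fintype_card]
      convert heven
  exact h2 P hP I fun k => rfl

/-- Transfer of a word by a correspondence. -/
theorem Occ.transfer [IsAlgClosed Ω] (hC : IsCycleSystem Ω C) (hkp : BigA (kp p) j)
    {Y Y' : RedAV p ν} (hY : Big Y.X j) (hY' : Big Y'.X j) {κ κ' : Type} [Fintype κ]
    [DecidableEq κ] [Fintype κ'] [DecidableEq κ'] {s : κ → Wt Y.X L}
    (hs : Function.Injective s) {t : κ' → Wt Y'.X L} (ht : Function.Injective t)
    (heven : Even (Fintype.card κ' + Fintype.card κ))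
    (hd : ∀ f, Nat.card {k : κ' ⊕ κ // Sum.elim (fun k => ty ν j (t k))
        (fun k => -ty ν j (s k)) k = f} =
      Nat.card {k : κ' ⊕ κ // Sum.elim (fun k => ty ν j (t k)) (fun k => -ty ν j (s k)) k = -f})
    (h : Occ jO C Y s) : Occ jO C Y' t := by
  classical
  obtain ⟨c, c', hc, h1⟩ := h
  let I : κ' ⊕ κ → Wt (prodR Y' Y).X L :=
    Sum.elim (fun k => inlW (t k)) fun k => inrW (bar (s k))
  have hty : ∀ k, ty ν j (I k) = Sum.elim (fun k => ty ν j (t k))
      (fun k => -ty ν j (s k)) k := by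
    rintro (k | k)
    · rfl
    · change tf p ν j (St j (bar (s k))) = _
      rw [tf_bar]
      rfl
  have hA : Alg Ω (prodR Y' Y) (κ' ⊕ κ) (monoO jO I) := by
    refine alg_of_dcnt hkp (big_prodR hY' hY) I (by rw [Fintype.card_sum]; exact heven) fun f => ?_
    have e1 : ∀ f, Nat.card {k // ty ν j (I k) = f} = Nat.card {k : κ' ⊕ κ //
        Sum.elim (fun k => ty ν j (t k)) (fun k => -ty ν j (s k)) k = f} := fun f =>
      Nat.card_congr (Equiv.subtypeEquivRight fun k => by rw [hty])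
    rw [e1, e1]
    exact hd f
  have hs' : Function.Injective fun k => bar (s k) := fun k k' hk => hs (bar_injective hk)
  have hI : Function.Injective I := by
    refine Function.Injective.sumElim ?_ ?_ ?_
    · intro k k' hk
      refine ht ?_
      have h5 := Sigma.mk.inj_iff.1 hk
      exact Sigma.ext (Sum.inl.inj h5.1) h5.2
    · intro k k' hk
      refine hs' ?_
      have h5 := Sigma.mk.inj_iff.1 hk
      exact Sigma.ext (Sum.inr.inj h5.1) h5.2
    · intro k k' hk
      exact Sum.inl_ne_inr (Sigma.mk.inj_iff.1 hk).1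
  obtain ⟨d, d', μ, h2, h3, h4⟩ := pos_of_alg hC jO j (big_prodR hY' hY) hI hA
  have hdd : d * d' ≠ 0 := by
    rw [h3]
    refine (map_ne_zero jO).2 fun h => ?_
    have h5 := h4.1
    rw [h, map_zero, zero_mul] at h5
    exact h5 rfl
  obtain ⟨δ, hδ, h5⟩ := line_div hC hY hs ht h1 h2
  exact ⟨_, _, mul_ne_zero (mul_ne_zero (left_ne_zero_of_mul hdd) hc) ((map_ne_zero jO).2 hδ), h5⟩

/-- Both coefficients of a line on a word are different from zero if the word and its conjugate
occur. -/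
theorem Occ.right_ne (hC : IsCycleSystem Ω C) {Y : RedAV p ν} (hB : Big Y.X j) {κ : Type}
    [Fintype κ] [DecidableEq κ] {s : κ → Wt Y.X L} (hs : Function.Injective s)
    (h : Occ jO C Y fun k => bar (s k)) {c c' : Ω} (h1 : Ln jO C Y s c c') (hc : c ≠ 0) :
    c' ≠ 0 := by
  obtain ⟨d, d', hd, h2⟩ := h
  have h3 := Ln.swap h2
  have h4 : (fun k => bar (bar (s k))) = s := by
    funext k
    exact bar_bar _
  rw [h4] at h3
  obtain ⟨l, h5, h6⟩ := two_lines hC j hB hs h1 h3
  intro hc'
  have h7 : jO l ≠ 0 := by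
    rw [← h5]
    exact mul_ne_zero hc hd
  have h8 : jO (cc L l) ≠ 0 := (map_ne_zero jO).2 ((map_ne_zero (cc L)).2 ((map_ne_zero jO).1 h7))
  rw [← h6, hc', zero_mul] at h8
  exact h8 rfl

/-- Monomials of words which occur are combinations of classes in the system. -/
theorem Occ.mem_span {Y : RedAV p ν} {κ : Type} [Fintype κ] [DecidableEq κ]
    {s : κ → Wt Y.X L} (h : Occ jO C Y s) :
    monoO jO s ∈ Submodule.span Ω {y | C Y κ y} := by
  obtain ⟨c, c', hc, h1⟩ := h
  obtain ⟨f, hf, hf2⟩ := fst_mem h1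
  have h4 : f = c • monoO jO s := ext_res fun v => by
    rw [hf2]
    change c * jO (mono s v) = c * monoO jO s (fun k => (1 : Ω) ⊗ₜ[ℚ] v k)
    rw [Pool.Agent.W417.TA.monoO_tmul]
  have h5 := Submodule.smul_mem _ c⁻¹ hf
  rwa [h4, smul_smul, inv_mul_cancel₀ hc, one_smul] at h5

/-- A class with a coefficient at `s` and an occurring complementary word is not numerically
trivial. -/
theorem not_numTrivial {Y : RedAV p ν} (hB : Big Y.X j)
    (e : Basis (Wt Y.X L) Ω (TM Ω Y)) (h1 : ∀ w, co jO w (e w) = 1)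
    (h0 : ∀ w w', w ≠ w' → co jO w (e w') = 0) {κ κ' : Type} [Fintype κ] [DecidableEq κ]
    [Fintype κ'] [DecidableEq κ'] {z : (TM Ω Y) [⋀^κ]→ₗ[Ω] Ω} {s : κ → Wt Y.X L}
    {t : κ' → Wt Y.X L} (hb : Function.Bijective (Sum.elim s t))
    (hs : (z fun k => e (s k)) ≠ 0) (ht : Occ jO C Y t) : ¬ IsNumTrivial Ω C z := by
  classical
  intro hnum
  have : Finite (Wt Y.X L) := Pool.Agent.W67.TA.finite_wt j hB
  let _ : Fintype (Wt Y.X L) := Fintype.ofFinite _
  have h5 := ht.mem_span
  have hcard : Fintype.card κ + Fintype.card κ' = finrank ℚ Y.X.H1 := by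
    rw [← Fintype.card_sum, ← Nat.card_eq_fintype_card, Nat.card_eq_of_bijective _ hb,
      Pool.Agent.W67.TA.card_wt j hB]
  have hzero : ∀ y ∈ Submodule.span Ω {y | C Y κ' y}, ∀ v, altSum (times z y) v = 0 := by
    intro y hy
    induction hy using Submodule.span_induction with
    | mem y hy =>
      have h6 : (times z y : _ → Ω) = RK.mulM z.toMultilinearMap y.toMultilinearMap := by
        funext v
        rw [RK.mulM_apply]
        rfl
      intro v
      rw [h6]
      refine ext_altSum _ (fun v => ?_) v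
      rw [← h6]
      exact hnum κ' y hy hcard v
    | zero =>
      intro v
      unfold altSum times
      simp
    | add y y' _ _ hy hy' =>
      intro v
      have h6 : altSum (times z ⇑(y + y')) v = altSum (times z y) v + altSum (times z y') v := by
        unfold altSum times
        simp only [AlternatingMap.add_apply, mul_add, Finset.sum_add_distrib]
      rw [h6, hy, hy', add_zero]
    | smul c y _ hy =>
      intro v
      have h6 : altSum (times z ⇑(c • y)) v = c * altSum (times z y) v := by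
        unfold altSum times
        simp only [AlternatingMap.smul_apply, smul_eq_mul, Finset.mul_sum]
        exact Finset.sum_congr rfl fun σ _ => by ring
      rw [h6, hy, mul_zero]
  have h6 := hzero _ h5 fun x => e (Sum.elim s t x)
  rw [altSum_mono e h1 h0 hB z hb.1] at h6
  exact mul_ne_zero (mul_ne_zero (Nat.cast_ne_zero.2 Fintype.card_ne_zero)
    (Nat.cast_ne_zero.2 Fintype.card_ne_zero)) hs h6

end

end Pool.Agent.U124.HD
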