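import Pool.Agent.U124.HD.Occ

/-!
# Sums over the decomposition group
-/

set_option autoImplicit false
set_option linter.unusedSectionVars false
set_option linter.unusedVariables false

namespace Pool.Agent.U124.HD

open NumberField Pool.Agent.H204R3.CM Pool.Agent.W547.KB Pool.Agent.W547.LD Pool.Agent.W547.HR
  Pool.Agent.W495.TA Module Pool.Agent.TH117.PO Pool.Agent.W976.TA Pool.Agent.W417.TA
  Pool.Agent.TH117.BL Pool.Agent.W495.TC Pool.Agent.W495.TB Pool.Agent.TH117.F5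
  Pool.Agent.N202.QR Pool.Agent.U124.HL
open scoped TensorProduct

noncomputable section

variable {p : ℕ} [Fact p.Prime] {ν : PadicAlgCl p ≃+* ℂ}
variable {L : Type} [Field L] [NumberField L] [IsCMField L] [IsGalois ℚ L] {j : L →+* ℂ}
  {k : Type} [Field k] {Ω : Type} [Field Ω] [CharZero Ω] [Algebra k Ω] {jO : L →+* Ω}
  {C : (Y : RedAV p ν) → (κ : Type) → ((TM Ω Y) [⋀^κ]→ₗ[Ω] Ω) → Prop}

variable (k) in
/-- The decomposition group: the automorphisms of `L` which are induced by automorphisms of `Ω`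
over `k`. -/
def Dk (jO : L →+* Ω) : Subgroup (L ≃ₐ[ℚ] L) where
  carrier := {g | ∃ σ : Ω ≃ₐ[k] Ω, ∀ x, σ (jO x) = jO (g x)}
  one_mem' := ⟨1, fun x => rfl⟩
  mul_mem' := by
    rintro g g' ⟨σ, hσ⟩ ⟨σ', hσ'⟩
    refine ⟨σ * σ', fun x => ?_⟩
    change σ (σ' (jO x)) = jO (g (g' x))
    rw [hσ', hσ]
  inv_mem' := by
    rintro g ⟨σ, hσ⟩
    refine ⟨σ⁻¹, fun x => ?_⟩
    change σ.symm (jO x) = jO (g.symm x)
    rw [AlgEquiv.symm_apply_eq, hσ, g.apply_symm_apply]

/-- The action of the decomposition group on the words which occur. -/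
theorem Occ.galois (hC : IsCycleSystem Ω C) (hQ : AreRationalOver k Ω C) {Y : RedAV p ν}
    (hB : Big Y.X j) {κ : Type} [Fintype κ] [DecidableEq κ] {s : κ → Wt Y.X L}
    (hs : Function.Injective s) (h : Occ jO C Y s) {g : L ≃ₐ[ℚ] L} (hg : g ∈ Dk k jO) :
    Occ jO C Y fun i => sw g (s i) := by
  obtain ⟨c, c', hc, h1⟩ := h
  obtain ⟨σ, hσ⟩ := hg
  obtain ⟨e, e1, e0⟩ := Pool.Agent.W67.TA.basis p ν Ω L j jO Y hB
  obtain ⟨z, hz, hz1⟩ := exists_class e e1 e0 hs h1 hc
  have h2 := coef_act jO σ g hσ e e1 e0 (hQ z hz) s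
  have hi : Function.Injective fun i => sw g (s i) := fun i i' hii => hs (sw_inj g hii)
  refine ⟨_, _, ?_, Ln_coef hC j hB e e1 e0 hz hi⟩
  rw [h2]
  exact (map_ne_zero_iff σ σ.injective).2 hz1

variable (j jO C) in
/-- The functions belong to a word which occurs on some variety. -/
def OccT (κ : Type) (t : κ → (L ≃ₐ[ℚ] L) → ℤ) : Prop :=
  ∃ (_ : Fintype κ) (_ : DecidableEq κ) (Y : RedAV p ν) (_ : Big Y.X j) (s : κ → Wt Y.X L),
    Function.Injective s ∧ (∀ i, ty ν j (s i) = t i) ∧ Occ jO C Y s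

theorem OccT.out {κ : Type} [I1 : Fintype κ] [I2 : DecidableEq κ] {t : κ → (L ≃ₐ[ℚ] L) → ℤ}
    (h : OccT j jO C κ t) : ∃ (Y : RedAV p ν) (_ : Big Y.X j) (s : κ → Wt Y.X L),
      Function.Injective s ∧ (∀ i, ty ν j (s i) = t i) ∧ Occ jO C Y s := by
  obtain ⟨J1, J2, h1⟩ := h
  have e1 : J1 = I1 := Subsingleton.elim _ _
  have e2 : J2 = I2 := Subsingleton.elim _ _
  subst e1
  subst e2
  exact h1

theorem OccT.cup (hC : IsCycleSystem Ω C) {κ κ' : Type}
    {t : κ → (L ≃ₐ[ℚ] L) → ℤ} {t' : κ' → (L ≃ₐ[ℚ] L) → ℤ}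
    (h : OccT j jO C κ t) (h' : OccT j jO C κ' t') :
    OccT j jO C (κ ⊕ κ') (Sum.elim t t') := by
  obtain ⟨_, _, Y, hY, s, hs, hst, h1⟩ := h
  obtain ⟨_, _, Y', hY', s', hs', hst', h1'⟩ := h'
  refine ⟨inferInstance, inferInstance, prodR Y Y', big_prodR hY hY',
    Sum.elim (fun i => inlW (s i)) fun i => inrW (s' i), ?_, ?_, ?_⟩
  · refine Function.Injective.sumElim ?_ ?_ ?_
    · intro k k' hk
      refine hs ?_
      have h5 := Sigma.mk.inj_iff.1 hk
      exact Sigma.ext (Sum.inl.inj h5.1) h5.2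
    · intro k k' hk
      refine hs' ?_
      have h5 := Sigma.mk.inj_iff.1 hk
      exact Sigma.ext (Sum.inr.inj h5.1) h5.2
    · intro k k' hk
      exact Sum.inl_ne_inr (Sigma.mk.inj_iff.1 hk).1
  · rintro (i | i)
    · exact hst i
    · exact hst' i
  · have h2 : Occ jO C (prodR Y Y') fun i => inlW (s i) :=
      Occ.types hC j hs (fun i => rfl) h1
    have h3 : Occ jO C (prodR Y Y') fun i => inrW (s' i) :=
      Occ.types hC j hs' (fun i => rfl) h1'
    exact Occ.cup hC h2 h3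

theorem OccT.reindex (hC : IsCycleSystem Ω C) {κ κ' : Type} (e : κ ≃ κ')
    {t : κ → (L ≃ₐ[ℚ] L) → ℤ} {t' : κ' → (L ≃ₐ[ℚ] L) → ℤ} (ht : ∀ i, t' (e i) = t i)
    (h : OccT j jO C κ t) : OccT j jO C κ' t' := by
  classical
  obtain ⟨_, _, Y, hY, s, hs, hst, h1⟩ := h
  let I1 : Fintype κ' := Fintype.ofEquiv κ e
  let I2 : DecidableEq κ' := Classical.decEq κ'
  refine ⟨I1, I2, Y, hY, fun i => s (e.symm i), fun i i' hi => e.symm.injective (hs hi),
    fun i => ?_, Occ.reindex hC e (fun i => ?_) h1⟩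
  · rw [hst, ← ht, e.apply_symm_apply]
  · rw [e.symm_apply_apply]

/-- The bijection for one more term. -/
def stepE (κ : Type) (n : ℕ) : κ ⊕ (Fin n × κ) ≃ Fin (n + 1) × κ where
  toFun x := Sum.elim (fun k => ((0 : Fin (n + 1)), k)) (fun y => (y.1.succ, y.2)) x
  invFun y := Fin.cases (motive := fun _ => κ ⊕ (Fin n × κ)) (Sum.inl y.2)
    (fun i => Sum.inr (i, y.2)) y.1
  left_inv := by
    rintro (k | y)
    · rfl
    · rfl
  right_inv := by
    rintro ⟨i, k⟩
    induction i using Fin.cases with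
    | zero => rfl
    | succ i => rfl

/-- Sums of words. -/
theorem OccT.sum (hC : IsCycleSystem Ω C) {Y0 : RedAV p ν} (hY0 : Big Y0.X j) {κ : Type}
    [Finite κ] (n : ℕ) (t : Fin n → κ → (L ≃ₐ[ℚ] L) → ℤ) (h : ∀ i, OccT j jO C κ (t i)) :
    OccT j jO C (Fin n × κ) fun x => t x.1 x.2 := by
  classical
  let _ : Fintype κ := Fintype.ofFinite κ
  induction n with
  | zero =>
    exact ⟨inferInstance, inferInstance, Y0, hY0, fun x => x.1.elim0, fun x => x.1.elim0,
      fun x => x.1.elim0, Occ.empty hC _⟩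
  | succ n ih =>
    have h1 := OccT.cup hC (h 0) (ih (fun i => t i.succ) fun i => h i.succ)
    refine OccT.reindex hC (stepE κ n) ?_ h1
    rintro (k | y)
    · rfl
    · rfl

/-- Sums over a finite set. -/
theorem OccT.sumF (hC : IsCycleSystem Ω C) {Y0 : RedAV p ν} (hY0 : Big Y0.X j) {κ : Type}
    [Finite κ] {T : Type} [Finite T] (t : T → κ → (L ≃ₐ[ℚ] L) → ℤ)
    (h : ∀ i, OccT j jO C κ (t i)) : OccT j jO C (T × κ) fun x => t x.1 x.2 := by
  obtain ⟨n, ⟨e⟩⟩ := Finite.exists_equiv_fin T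
  have h1 := OccT.sum hC hY0 n (fun i => t (e.symm i)) fun i => h _
  refine OccT.reindex hC (Equiv.prodCongr e.symm (Equiv.refl κ)) ?_ h1
  rintro ⟨i, k⟩
  rfl

/-- The conjugate word occurs, if the sum over the decomposition group vanishes. -/
theorem Occ.conj [IsAlgClosed Ω] (hC : IsCycleSystem Ω C) (hQ : AreRationalOver k Ω C)
    (hkp : BigA (kp p) j) {Y : RedAV p ν} (hB : Big Y.X j) {κ : Type} [Fintype κ]
    [DecidableEq κ] {s : κ → Wt Y.X L} (hs : Function.Injective s)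
    (heven : Even (Fintype.card κ))
    (hd : ∀ f : (L ≃ₐ[ℚ] L) → ℤ,
      Nat.card {x : Dk k jO × κ // ty ν j (sw x.1.1 (s x.2)) = f} =
      Nat.card {x : Dk k jO × κ // ty ν j (sw x.1.1 (s x.2)) = -f})
    (h : Occ jO C Y s) : Occ jO C Y fun i => bar (s i) := by
  classical
  have hfin : Finite (L ≃ₐ[ℚ] L) := inferInstance
  let T := {g : Dk k jO // g ≠ 1}
  have hT : Finite T := inferInstance
  let _ : Fintype (Dk k jO) := Fintype.ofFinite _
  let _ : Fintype T := Fintype.ofFinite _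
  have h1 : ∀ g : T, OccT j jO C κ fun i => ty ν j (sw g.1.1 (s i)) := fun g =>
    ⟨inferInstance, inferInstance, Y, hB, fun i => sw g.1.1 (s i),
      fun i i' hi => hs (sw_inj _ hi), fun i => rfl, Occ.galois hC hQ hB hs h g.1.2⟩
  obtain ⟨Y', hY', s', hs', hst', h2⟩ := (OccT.sumF hC hB _ h1).out
  have hsb : Function.Injective fun i => bar (s i) := fun i i' hi => hs (bar_injective hi)
  let E : κ ⊕ (T × κ) ≃ Dk k jO × κ :=
    { toFun := fun x => match x with
        | Sum.inl i => (1, i)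
        | Sum.inr y => (y.1.1, y.2)
      invFun := fun x => if hx : x.1 = 1 then Sum.inl x.2 else Sum.inr (⟨x.1, hx⟩, x.2)
      left_inv := by
        rintro (i | ⟨⟨g, hg⟩, i⟩)
        · simp
        · simp [hg]
      right_inv := by
        rintro ⟨g, i⟩
        by_cases hg : g = 1
        · simp [hg]
        · simp [hg] }
  have hE : ∀ x : κ ⊕ (T × κ), Sum.elim (fun i => ty ν j (bar (s i)))
      (fun i => -ty ν j (s' i)) x = -ty ν j (sw (E x).1.1 (s (E x).2)) := by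
    rintro (i | y)
    · change tf p ν j (St j (bar (s i))) = -ty ν j (sw 1 (s i))
      rw [tf_bar]
      rfl
    · change -ty ν j (s' y) = -ty ν j (sw y.1.1.1 (s y.2))
      rw [hst']
  have hcnt : ∀ f : (L ≃ₐ[ℚ] L) → ℤ, Nat.card {x : κ ⊕ (T × κ) //
      Sum.elim (fun i => ty ν j (bar (s i))) (fun i => -ty ν j (s' i)) x = f} =
      Nat.card {x : Dk k jO × κ // ty ν j (sw x.1.1 (s x.2)) = -f} := by
    intro f
    refine Nat.card_congr (Equiv.subtypeEquiv E fun x => ?_)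
    rw [hE, neg_eq_iff_eq_neg]
  have hcard : Fintype.card κ + Fintype.card (T × κ) = Fintype.card (Dk k jO × κ) := by
    rw [← Fintype.card_sum]
    exact Fintype.card_congr E
  refine Occ.transfer hC hkp hY' hB hs' hsb ?_ (fun f => ?_) h2
  · rw [hcard, Fintype.card_prod]
    exact heven.mul_left _
  · rw [hcnt, hcnt, neg_neg]
    exact (hd f).symm

end

end Pool.Agent.U124.HD
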